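import Pool.Agent.U565.LUR.MB
import Pool.Agent.U565.LUR.Ell

/-!
# A Banach space with an extended M-basis and no equivalent locally uniformly convex norm

Problem MP_ea77cd_an, Q1 (John and Zizler): does every Banach space that has an extended
M-basis admit an equivalent locally uniformly convex norm?  The answer is no, over `ℝ` and over
`ℂ`.

The space is `E = ℓ^∞ × ℓ^1(Z; ℓ^2)` with `Z` the closed unit ball of `ℓ^∞`; its M-basis is the
one constructed by helper183 for problem MP_810de6_an.  As `E` contains `ℓ^∞`, it remains to see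
that `ℓ^∞` has no equivalent locally uniformly convex norm, which is a classical result of
Lindenstrauss and is proved here in `Pool.Agent.U565.LUR.Ell`.
-/

open Filter Topology

namespace Pool.Agent.Results.MP_ea77cd_an.NoLURNorm

/-- The family `x` is an extended M-basis of `E` with associated functionals `f`: the system is
biorthogonal, `x` spans a dense subspace, and the functionals `f i` separate the points of `E`. -/
structure IsExtendedMBasis {𝕜 E I : Type} [RCLike 𝕜] [NormedAddCommGroup E] [NormedSpace 𝕜 E]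
    (x : I → E) (f : I → StrongDual 𝕜 E) : Prop where
  biorth_self : ∀ i, f i (x i) = 1
  biorth_ne : ∀ i j, i ≠ j → f j (x i) = 0
  dense : Dense ((Submodule.span 𝕜 (Set.range x) : Submodule 𝕜 E) : Set E)
  total : ∀ v : E, (∀ i, f i v = 0) → v = 0

/-- `N` is a norm on `E` equivalent to the given one (it is bounded by a constant multiple of the
given norm, and conversely; in particular `N x = 0` only for `x = 0`). -/
def IsEquivalentNorm {𝕜 E : Type} [RCLike 𝕜] [NormedAddCommGroup E] [NormedSpace 𝕜 E]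
    (N : Seminorm 𝕜 E) : Prop :=
  ∃ c C : ℝ, 0 < c ∧ 0 < C ∧ ∀ x, c * ‖x‖ ≤ N x ∧ N x ≤ C * ‖x‖

/-- `N` is locally uniformly convex: if `N x = N (y n) = 1` and `N (y n + x) → 2`, then
`N (y n - x) → 0`. -/
def IsLUR {𝕜 E : Type} [RCLike 𝕜] [NormedAddCommGroup E] [NormedSpace 𝕜 E]
    (N : Seminorm 𝕜 E) : Prop :=
  ∀ (x : E) (y : ℕ → E), N x = 1 → (∀ n, N (y n) = 1) →
    Tendsto (fun n => N (y n + x)) atTop (𝓝 2) → Tendsto (fun n => N (y n - x)) atTop (𝓝 0)

/-- Over `ℝ` and over `ℂ` there is a Banach space with an extended M-basis on which no equivalent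
norm is locally uniformly convex. -/
theorem result (𝕜 : Type) [RCLike 𝕜] :
    ∃ (E : Type) (_ : NormedAddCommGroup E) (_ : NormedSpace 𝕜 E) (_ : CompleteSpace E),
      (∃ (I : Type) (x : I → E) (f : I → StrongDual 𝕜 E), IsExtendedMBasis x f) ∧
        ∀ N : Seminorm 𝕜 E, IsEquivalentNorm N → ¬ IsLUR N := by
  refine ⟨U565.LUR.MB.E 𝕜, inferInstance, inferInstance, inferInstance, ?_, ?_⟩
  · have h := U565.LUR.MB.isMBasis 𝕜
    exact ⟨_, _, _, ⟨h.biorth_self, h.biorth_ne, h.dense, h.total⟩⟩
  · rintro N ⟨c, C, hc, hC, hN⟩ hlur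
    set ι : U565.LUR.MB.EllInfty 𝕜 →ₗ[𝕜] U565.LUR.MB.E 𝕜 := LinearMap.inl 𝕜 _ _ with hι
    have hιn : ∀ v, ‖ι v‖ = ‖v‖ := by
      intro v
      rw [hι, LinearMap.inl_apply, Prod.norm_mk, norm_zero, max_eq_left (norm_nonneg _)]
    obtain ⟨x, z, hx, hz, h1, h2⟩ := U565.LUR.Ell.main (N.comp ι) hc hC
      (fun v => by rw [Seminorm.comp_apply, ← hιn]; exact (hN _).1)
      (fun v => by rw [Seminorm.comp_apply, ← hιn]; exact (hN _).2)
    exact U565.LUR.Ell.not_lur (N.comp ι) hc x z hx hz h1 h2 fun x' y hx' hy hl => by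
      simp only [Seminorm.comp_apply, map_add, map_sub] at *
      exact hlur (ι x') (fun n => ι (y n)) hx' hy hl

end Pool.Agent.Results.MP_ea77cd_an.NoLURNorm
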